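import Pool.Agent.H91.RD.Basic

/-!
# MP_609556_an: helper35's basic lemmas on mild solutions
-/

open MeasureTheory Set Filter Topology Metric
open Pool.Agent.H29.TF (hk P)
open Pool.Agent.H91.RD

namespace Pool.Agent.H35.RD

variable {N : ℕ}

/-- measurability and boundedness of the source term -/
theorem integrableOn_duh {s t M : ℝ} {h : ℝ → E N → ℝ}
    (hb : ∀ r ∈ Ioo s t, ∀ x, |h r x| ≤ M)
    (hc : ContinuousOn (fun p : ℝ × E N => h p.1 p.2) (Ioo s t ×ˢ univ)) (x : E N) :
    IntegrableOn (fun r => P (t - r) (h r) x) (Ioo s t) := by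
  have hm : AEStronglyMeasurable (fun r => P (t - r) (h r) x) (volume.restrict (Ioo s t)) := by
    have h1 : AEStronglyMeasurable (fun p : ℝ × E N => hk (t - p.1) (x - p.2) * h p.1 p.2)
        ((volume.restrict (Ioo s t)).prod (volume : Measure (E N))) := by
      apply AEStronglyMeasurable.mul
      · apply Measurable.aestronglyMeasurable
        exact Pool.Agent.H29.TF.measurable_hk_uncurry.comp (by fun_prop :
          Measurable fun p : ℝ × E N => (t - p.1, x - p.2))
      · have h2 : (volume.restrict (Ioo s t)).prod (volume : Measure (E N)) =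
            (volume : Measure (ℝ × E N)).restrict (Ioo s t ×ˢ univ) := by
          have := Measure.prod_restrict (μ := (volume : Measure ℝ)) (ν := (volume : Measure (E N)))
            (Ioo s t) univ
          rw [Measure.restrict_univ] at this
          rw [this]
          rfl
        rw [h2]
        exact hc.aestronglyMeasurable (measurableSet_Ioo.prod MeasurableSet.univ)
    exact h1.integral_prod_right'
  haveI : IsFiniteMeasure ((volume : Measure ℝ).restrict (Ioo s t)) :=
    ⟨by rw [Measure.restrict_apply_univ, Real.volume_Ioo]; exact ENNReal.ofReal_lt_top⟩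
  refine Integrable.of_bound hm M ?_
  · rw [ae_restrict_iff' measurableSet_Ioo]
    refine Eventually.of_forall fun r hr => ?_
    rw [Real.norm_eq_abs]
    exact Pool.Agent.H29.TF.abs_P_le (by linarith [hr.2]) (hb r hr) x

theorem ii_duh {s t M : ℝ} {h : ℝ → E N → ℝ} (hst : s ≤ t)
    (hb : ∀ r ∈ Ioo s t, ∀ x, |h r x| ≤ M)
    (hc : ContinuousOn (fun p : ℝ × E N => h p.1 p.2) (Ioo s t ×ˢ univ)) (x : E N) :
    IntervalIntegrable (fun r => P (t - r) (h r) x) volume s t := by
  rw [intervalIntegrable_iff_integrableOn_Ioo_of_le hst]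
  exact integrableOn_duh hb hc x

theorem mild_comp_cont {f : ℝ → ℝ} {K a : ℝ} {w : ℝ → E N → ℝ} (hf : Lip f K)
    (hw : Mild f a w) : ContinuousOn (fun p : ℝ × E N => f (w p.1 p.2)) (Ioi a ×ˢ univ) :=
  hf.continuous.comp_continuousOn hw.cont

theorem mild_slice {f : ℝ → ℝ} {a : ℝ} {w : ℝ → E N → ℝ} (hw : Mild f a w) {t : ℝ} (ht : a < t) :
    Continuous (w t) := by
  rw [continuous_iff_continuousAt]
  intro x
  have h1 := hw.cont.continuousAt ((isOpen_Ioi.prod isOpen_univ).mem_nhds
    (show (t, x) ∈ Ioi a ×ˢ univ from ⟨ht, mem_univ _⟩))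
  exact ContinuousAt.comp (f := fun y : E N => (t, y)) h1 (by fun_prop)

theorem mild_meas {f : ℝ → ℝ} {a : ℝ} {w : ℝ → E N → ℝ} (hw : Mild f a w) {t : ℝ} (ht : a ≤ t) :
    Measurable (w t) := by
  rcases ht.eq_or_lt with h | h
  · rw [← h]; exact hw.meas
  · exact (mild_slice hw h).measurable

theorem ii_mild {f : ℝ → ℝ} {K a : ℝ} {w : ℝ → E N → ℝ} (hf : Lip f K) (hw : Mild f a w)
    {s t : ℝ} (hs : a ≤ s) (hst : s ≤ t) (x : E N) :
    IntervalIntegrable (fun r => P (t - r) (fun y => f (w r y)) x) volume s t := by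
  obtain ⟨M, hM⟩ := hw.bdd
  refine ii_duh (M := K * M) hst (fun r hr x => ?_) ?_ x
  · refine (hf.abs_le _).trans ?_
    exact mul_le_mul_of_nonneg_left (hM r (by linarith [hr.1]) x) hf.K0.le
  · exact (mild_comp_cont hf hw).mono (prod_mono (fun r hr => by
      have := hr.1
      show a < r
      linarith) (subset_refl _))

/-- a bound for the source term -/
theorem abs_duh_le {s t M : ℝ} {h : ℝ → E N → ℝ} (hst : s ≤ t)
    (hb : ∀ r ∈ Ioo s t, ∀ x, |h r x| ≤ M) (x : E N) :
    |∫ r in s..t, P (t - r) (h r) x| ≤ M * (t - s) := by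
  have h1 : ∀ᵐ r, r ∈ uIoc s t → ‖P (t - r) (h r) x‖ ≤ M := by
    have h2 : ∀ᵐ r : ℝ, r ≠ t := by
      rw [ae_iff]
      have : {a : ℝ | ¬ a ≠ t} = {t} := by ext r; simp
      rw [this]
      exact Real.volume_singleton
    filter_upwards [h2] with r hr hr2
    rw [uIoc_of_le hst] at hr2
    have h3 : r < t := lt_of_le_of_ne hr2.2 hr
    rw [Real.norm_eq_abs]
    exact Pool.Agent.H29.TF.abs_P_le (by linarith) (hb r ⟨hr2.1, h3⟩) x
  have h4 := intervalIntegral.norm_integral_le_of_norm_le_const_ae h1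
  rwa [Real.norm_eq_abs, abs_of_nonneg (by linarith : 0 ≤ t - s)] at h4

end Pool.Agent.H35.RD
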