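import Pool.Agent.H35.RD.Base

/-!
# MP_609556_an: module REG (uniform regularity of mild solutions)
-/

open MeasureTheory Set Filter Topology Metric
open Pool.Agent.H29.TF (hk P)
open Pool.Agent.H91.RD

namespace Pool.Agent.H35.RD

variable {N : ℕ}

theorem ii_invsqrt (t : ℝ) : IntervalIntegrable (fun r : ℝ => 1 / √(t - r)) volume (t - 1) t := by
  have h1 : IntervalIntegrable (fun r : ℝ => r ^ (-(1 / 2) : ℝ)) volume 0 1 :=
    intervalIntegral.intervalIntegrable_rpow' (by norm_num)
  have h2 := h1.comp_sub_left t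
  simp only [sub_zero] at h2
  refine h2.symm.congr (fun r hr => ?_)
  rw [uIoc_of_le (by linarith)] at hr
  show (t - r) ^ (-(1 / 2) : ℝ) = 1 / √(t - r)
  rw [Real.rpow_neg (by linarith [hr.2]), Real.sqrt_eq_rpow, one_div ((t - r) ^ (1 / 2 : ℝ))]

theorem int_invsqrt (t : ℝ) : ∫ r in (t - 1)..t, 1 / √(t - r) = 2 := by
  have h1 : ∫ r in (t - 1)..t, 1 / √(t - r) = ∫ r in (t - 1)..t, (t - r) ^ (-(1 / 2) : ℝ) := by
    apply intervalIntegral.integral_congr
    intro r hr
    rw [uIcc_of_le (by linarith)] at hr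
    show 1 / √(t - r) = (t - r) ^ (-(1 / 2) : ℝ)
    rw [Real.rpow_neg (by linarith [hr.2]), Real.sqrt_eq_rpow, one_div]
  rw [h1, intervalIntegral.integral_comp_sub_left (fun r => r ^ (-(1 / 2) : ℝ)) t,
    integral_rpow (Or.inl (by norm_num))]
  norm_num

theorem fw_le {f : ℝ → ℝ} {K a : ℝ} {w : ℝ → E N → ℝ} (hf : Lip f K) (hr : Rng a w) {t : ℝ}
    (ht : a ≤ t) (x : E N) : |f (w t x)| ≤ K := by
  have h1 := hf.abs_le (w t x)
  have h2 : |w t x| ≤ 1 := abs_le.2 ⟨by linarith [(hr t ht x).1], (hr t ht x).2⟩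
  nlinarith [hf.K0]

theorem reg_space {A : ℝ}
    (hgrad : ∀ t > 0, ∀ (g : E N → ℝ) (M : ℝ), AEStronglyMeasurable g volume → (∀ y, |g y| ≤ M) →
      ∀ x y, |P t g x - P t g y| ≤ A * M / √t * ‖x - y‖)
    {f : ℝ → ℝ} {K a : ℝ} {w : ℝ → E N → ℝ} (hf : Lip f K) (hw : Mild f a w) (hr : Rng a w)
    {t : ℝ} (ht : a + 1 ≤ t) (x y : E N) :
    |w t x - w t y| ≤ A * (1 + 2 * K) * ‖x - y‖ := by
  have hK := hf.K0
  have e1 := hw.duh (t - 1) t (by linarith) (by linarith) x
  have e2 := hw.duh (t - 1) t (by linarith) (by linarith) y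
  have i1 := ii_mild hf hw (show a ≤ t - 1 by linarith) (show t - 1 ≤ t by linarith) x
  have i2 := ii_mild hf hw (show a ≤ t - 1 by linarith) (show t - 1 ≤ t by linarith) y
  have h11 : t - (t - 1) = 1 := by ring
  have b1 : |P (t - (t - 1)) (w (t - 1)) x - P (t - (t - 1)) (w (t - 1)) y| ≤ A * ‖x - y‖ := by
    rw [h11]
    have := hgrad 1 one_pos (w (t - 1)) 1
      (mild_meas hw (by linarith)).aestronglyMeasurable (fun z => abs_le.2
        ⟨by linarith [(hr (t - 1) (by linarith) z).1], (hr (t - 1) (by linarith) z).2⟩) x y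
    simpa using this
  have b2 : |(∫ r in (t - 1)..t, P (t - r) (fun y => f (w r y)) x) -
      ∫ r in (t - 1)..t, P (t - r) (fun y => f (w r y)) y| ≤ 2 * (A * K * ‖x - y‖) := by
    rw [← intervalIntegral.integral_sub i1 i2]
    have hne : ∀ᵐ q : ℝ, q ≠ t := by
      rw [ae_iff]
      have : {a : ℝ | ¬ a ≠ t} = {t} := by ext q; simp
      rw [this]
      exact Real.volume_singleton
    have h3 : ∀ᵐ r, r ∈ Ioc (t - 1) t →
        ‖P (t - r) (fun y => f (w r y)) x - P (t - r) (fun y => f (w r y)) y‖ ≤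
          1 / √(t - r) * (A * K * ‖x - y‖) := by
      filter_upwards [hne] with r hrt hr2
      have hlt : r < t := lt_of_le_of_ne hr2.2 hrt
      have har : a < r := by linarith [hr2.1]
      have := hgrad (t - r) (by linarith) (fun y => f (w r y)) K
        (hf.continuous.comp (mild_slice hw har)).aestronglyMeasurable
        (fun z => fw_le hf hr har.le z) x y
      rw [Real.norm_eq_abs]
      refine this.trans (le_of_eq ?_)
      ring
    have h4 := intervalIntegral.norm_integral_le_of_norm_le (by linarith : t - 1 ≤ t) h3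
      ((ii_invsqrt t).mul_const _)
    rw [intervalIntegral.integral_mul_const, int_invsqrt] at h4
    exact h4
  rw [e1, e2]
  have e3 : P (t - (t - 1)) (w (t - 1)) x + (∫ r in (t - 1)..t, P (t - r) (fun y => f (w r y)) x) -
      (P (t - (t - 1)) (w (t - 1)) y + ∫ r in (t - 1)..t, P (t - r) (fun y => f (w r y)) y) =
      (P (t - (t - 1)) (w (t - 1)) x - P (t - (t - 1)) (w (t - 1)) y) +
      ((∫ r in (t - 1)..t, P (t - r) (fun y => f (w r y)) x) -
        ∫ r in (t - 1)..t, P (t - r) (fun y => f (w r y)) y) := by ring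
  rw [e3]
  calc _ ≤ _ := abs_add_le _ _
    _ ≤ A * ‖x - y‖ + 2 * (A * K * ‖x - y‖) := add_le_add b1 b2
    _ = _ := by ring

theorem P_sub_self_le {τ A L : ℝ} (hτ : 0 < τ) (hL : 0 ≤ L) {g : E N → ℝ}
    (hg : Measurable g) (hgb : ∀ x, |g x| ≤ 1)
    (h1 : Integrable (fun z : E N => hk τ z * ‖z‖)) (h2 : ∫ z : E N, hk τ z * ‖z‖ ≤ A * √τ)
    (hlip : ∀ x y, |g x - g y| ≤ L * ‖x - y‖) (x : E N) :
    |P τ g x - g x| ≤ L * (A * √τ) := by
  have e1 : P τ g x - g x = ∫ y, hk τ (x - y) * (g y - g x) := by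
    have i1 := Pool.Agent.H29.TF.integrable_hk_mul hτ hg.aestronglyMeasurable hgb x
    have i2 : Integrable (fun y : E N => hk τ (x - y) * g x) :=
      (Pool.Agent.H29.TF.integrable_hk_sub hτ x).mul_const _
    have e2 : (∫ y, hk τ (x - y) * (g y - g x)) =
        (∫ y, hk τ (x - y) * g y) - ∫ y, hk τ (x - y) * g x := by
      rw [← integral_sub i1 i2]
      congr 1; ext y; ring
    rw [e2, integral_mul_const, Pool.Agent.H29.TF.integral_hk_sub hτ, one_mul]
    rfl
  rw [e1, ← Real.norm_eq_abs]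
  have h3 : Integrable (fun y : E N => hk τ (x - y) * ‖x - y‖) := h1.comp_sub_left x
  have h4 : ∫ y : E N, hk τ (x - y) * ‖x - y‖ = ∫ z : E N, hk τ z * ‖z‖ :=
    integral_sub_left_eq_self (fun z : E N => hk τ z * ‖z‖) volume x
  calc ‖∫ y, hk τ (x - y) * (g y - g x)‖ ≤ ∫ y, L * (hk τ (x - y) * ‖x - y‖) := by
        apply norm_integral_le_of_norm_le (h3.const_mul L)
        refine Eventually.of_forall fun y => ?_
        rw [norm_mul, Real.norm_of_nonneg (Pool.Agent.H29.TF.hk_nonneg hτ.le _), Real.norm_eq_abs,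
          abs_sub_comm]
        have := hlip x y
        have h5 := Pool.Agent.H29.TF.hk_nonneg hτ.le (x - y)
        nlinarith
    _ = L * ∫ z : E N, hk τ z * ‖z‖ := by rw [integral_const_mul, h4]
    _ ≤ L * (A * √τ) := mul_le_mul_of_nonneg_left h2 hL

theorem reg (hGRAD : T_GRAD) : T_REG := by
  intro N K hK
  obtain ⟨A, hA, hgrad, hmom⟩ := hGRAD N
  have hA0 : 0 < A := by linarith
  have hAA0 : 0 ≤ A * (1 + 2 * K) * A := by positivity
  refine ⟨A * (1 + 2 * K) * A + K + 1, by linarith, ?_⟩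
  intro f a w hf hw hr
  have hsp : ∀ t ≥ a + 1, ∀ x y, |w t x - w t y| ≤ A * (1 + 2 * K) * ‖x - y‖ :=
    fun t ht x y => reg_space hgrad hf hw hr ht x y
  have hAA : A ≤ A * A := by nlinarith
  have hL0 : 0 ≤ A * (1 + 2 * K) := by positivity
  refine ⟨fun t ht x y => (hsp t ht x y).trans ?_, ?_⟩
  · apply mul_le_mul_of_nonneg_right _ (norm_nonneg _)
    nlinarith
  · -- the case `s < t`
    have key : ∀ s ≥ a + 1, ∀ t > s, ∀ x,
        |w t x - w s x| ≤ (A * (1 + 2 * K) * A + K + 1) * √(t - s) := by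
      intro s hs t hst x
      have hτ : 0 < t - s := by linarith
      rcases le_or_gt 1 (t - s) with h1 | h1
      · have h2 : 1 ≤ √(t - s) := Real.one_le_sqrt.2 h1
        have h3 : |w t x - w s x| ≤ 1 := by
          have q1 := hr t (by linarith) x
          have q2 := hr s (by linarith) x
          rw [abs_le]; constructor <;> linarith [q1.1, q1.2, q2.1, q2.2]
        have h4 : 1 ≤ A * (1 + 2 * K) * A + K + 1 := by
          have : 0 ≤ A * (1 + 2 * K) * A := by positivity
          linarith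
        calc |w t x - w s x| ≤ 1 * 1 := by linarith
          _ ≤ _ := mul_le_mul h4 h2 zero_le_one (by linarith)
      · have e1 := hw.duh s t (by linarith) hst x
        have b1 := P_sub_self_le hτ hL0 (mild_meas hw (by linarith : a ≤ s))
          (fun z => abs_le.2 ⟨by linarith [(hr s (by linarith) z).1], (hr s (by linarith) z).2⟩)
          (hmom (t - s) hτ).1 (hmom (t - s) hτ).2 (hsp s hs) x
        have b2 := abs_duh_le (M := K) (h := fun r y => f (w r y)) hst.le
          (fun r hr' z => fw_le hf hr (by linarith [hr'.1]) z) x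
        have b3 : t - s ≤ √(t - s) := by
          apply Real.le_sqrt_of_sq_le
          nlinarith
        have e2 : w t x - w s x = (P (t - s) (w s) x - w s x) +
            ∫ r in s..t, P (t - r) (fun y => f (w r y)) x := by
          rw [e1]; ring
        rw [e2]
        have h0 := Real.sqrt_nonneg (t - s)
        calc _ ≤ _ := abs_add_le _ _
          _ ≤ A * (1 + 2 * K) * (A * √(t - s)) + K * (t - s) := add_le_add b1 b2
          _ ≤ A * (1 + 2 * K) * (A * √(t - s)) + K * √(t - s) := by nlinarith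
          _ ≤ _ := by nlinarith
    intro s hs t ht x
    rcases lt_trichotomy s t with h | h | h
    · rw [abs_of_pos (by linarith : 0 < t - s)]
      exact key s hs t h x
    · subst h; simp
    · rw [abs_sub_comm, abs_sub_comm t s, abs_of_pos (by linarith : 0 < s - t)]
      exact key t ht s h x

end Pool.Agent.H35.RD
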