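import Pool.Agent.H35.RD.Base

/-!
# MP_609556_an: modules CMP, RNG, SOLM
-/

open MeasureTheory Set Filter Topology Metric
open Pool.Agent.H29.TF (hk P)
open Pool.Agent.H91.RD

namespace Pool.Agent.H35.RD

variable {N : ℕ}

theorem cmp (hGC : T_GC) : T_CMP := by
  intro N f K k a s t w1 w2 hf has hst h1 h2 hk12 x
  obtain ⟨M1, hM1⟩ := h1.bdd
  obtain ⟨M2, hM2⟩ := h2.bdd
  have hM10 : 0 ≤ M1 := (abs_nonneg _).trans (hM1 a le_rfl 0)
  have hM20 : 0 ≤ M2 := (abs_nonneg _).trans (hM2 a le_rfl 0)
  have hK := hf.K0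
  have hb1 : ∀ r ∈ Icc s t, ∀ x, |w1 r x - w2 r x| ≤ M1 + M2 := by
    intro r hr x
    have e1 := hM1 r (by linarith [hr.1]) x
    have e2 := hM2 r (by linarith [hr.1]) x
    calc |w1 r x - w2 r x| ≤ |w1 r x| + |w2 r x| := abs_sub _ _
      _ ≤ M1 + M2 := by linarith
  have hsub1 : Ioc s t ×ˢ (univ : Set (E N)) ⊆ Ioi a ×ˢ univ :=
    prod_mono (fun r hr => by
      have := hr.1
      show a < r
      linarith) (subset_refl _)
  have key := hGC N k K ((1 + K) * (M1 + M2)) s t (fun r x => w1 r x - w2 r x)
    (fun r x => f (w1 r x) - f (w2 r x)) hK.le hst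
    ((mild_meas h1 has).sub (mild_meas h2 has))
    (fun r hr x => (hb1 r hr x).trans (by nlinarith))
    (fun r hr x => (hf.lip _ _).trans (by nlinarith [hb1 r hr x]))
    ((h1.cont.mono hsub1).sub (h2.cont.mono hsub1))
    (((mild_comp_cont hf h1).mono hsub1).sub ((mild_comp_cont hf h2).mono hsub1))
    ?_ ?_ ?_ x
  · exact key
  · intro r hr x
    have hr1 := hr.1
    have d1 := h1.duh s r has hr.1 x
    have d2 := h2.duh s r has hr.1 x
    show w1 r x - w2 r x = P (r - s) (fun y => w1 s y - w2 s y) x +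
      ∫ q in s..r, P (r - q) (fun y => f (w1 q y) - f (w2 q y)) x
    rw [d1, d2, Pool.Agent.H29.TF.P_sub x
      (Pool.Agent.H29.TF.integrable_hk_mul (by linarith) (mild_meas h1 has).aestronglyMeasurable
        (hM1 s has) x)
      (Pool.Agent.H29.TF.integrable_hk_mul (by linarith) (mild_meas h2 has).aestronglyMeasurable
        (hM2 s has) x)]
    have e3 : ∫ q in s..r, P (r - q) (fun y => f (w1 q y) - f (w2 q y)) x =
        (∫ q in s..r, P (r - q) (fun y => f (w1 q y)) x) -
          ∫ q in s..r, P (r - q) (fun y => f (w2 q y)) x := by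
      rw [← intervalIntegral.integral_sub (ii_mild hf h1 has hr.1.le x)
        (ii_mild hf h2 has hr.1.le x)]
      apply intervalIntegral.integral_congr_ae
      have hne : ∀ᵐ q : ℝ, q ≠ r := by
        rw [ae_iff]
        have : {a : ℝ | ¬ a ≠ r} = {r} := by ext q; simp
        rw [this]
        exact Real.volume_singleton
      filter_upwards [hne] with q hq hq2
      rw [uIoc_of_le hr.1.le] at hq2
      have hqr : q < r := lt_of_le_of_ne hq2.2 hq
      have haq : a < q := by linarith [hq2.1]
      refine Pool.Agent.H29.TF.P_sub x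
        (Pool.Agent.H29.TF.integrable_hk_mul (C := K * M1) (by linarith)
          (hf.continuous.comp (mild_slice h1 haq)).aestronglyMeasurable (fun y => ?_) x)
        (Pool.Agent.H29.TF.integrable_hk_mul (C := K * M2) (by linarith)
          (hf.continuous.comp (mild_slice h2 haq)).aestronglyMeasurable (fun y => ?_) x)
      · exact (hf.abs_le _).trans (mul_le_mul_of_nonneg_left (hM1 q haq.le y) hK.le)
      · exact (hf.abs_le _).trans (mul_le_mul_of_nonneg_left (hM2 q haq.le y) hK.le)
    rw [e3]
    ring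
  · intro r hr x hz
    have hz' : w2 r x < w1 r x := by
      have : 0 < w1 r x - w2 r x := hz
      linarith
    exact hk12 r hr x hz'
  · intro r hr x hz
    have hz' : w1 r x - w2 r x ≤ 0 := hz
    have := hf.lip (w1 r x) (w2 r x)
    rw [abs_of_nonpos hz'] at this
    have h3 := (le_abs_self (f (w1 r x) - f (w2 r x))).trans this
    show f (w1 r x) - f (w2 r x) ≤ -(K * (w1 r x - w2 r x))
    linarith

theorem rng (hCMP : T_CMP) : T_RNG := by
  intro N f K a w hf hw h01 t ht x
  rcases ht.eq_or_lt with h | h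
  · have : t = a := h.symm
    subst this
    exact h01 x
  · have c0 : Mild f a (fun (_ : ℝ) (_ : E N) => (0 : ℝ)) := mild_const hf.f0 a
    have c1 : Mild f a (fun (_ : ℝ) (_ : E N) => (1 : ℝ)) := mild_const hf.f1 a
    have hz : ∀ τ : ℝ, P τ (fun _ : E N => (0 : ℝ)) x = 0 := by
      intro τ; unfold P; simp
    constructor
    · have key := hCMP N f K K a a t _ w hf le_rfl h c0 hw (fun r _ y hy => by
        have := hf.lip 0 (w r y)
        have h2 := (le_abs_self (f 0 - f (w r y))).trans this
        rwa [abs_of_pos (by linarith : 0 < 0 - w r y)] at h2) x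
      have e1 : (fun y => max ((0 : ℝ) - w a y) 0) = fun _ : E N => (0 : ℝ) := by
        ext y
        exact max_eq_right (by linarith [(h01 y).1])
      rw [e1, hz, mul_zero] at key
      linarith
    · have key := hCMP N f K K a a t w _ hf le_rfl h hw c1 (fun r _ y hy => by
        have := hf.lip (w r y) 1
        have h2 := (le_abs_self (f (w r y) - f 1)).trans this
        rwa [abs_of_pos (by linarith : 0 < w r y - 1)] at h2) x
      have e1 : (fun y => max (w a y - (1 : ℝ)) 0) = fun _ : E N => (0 : ℝ) := by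
        ext y
        exact max_eq_right (by linarith [(h01 y).2])
      rw [e1, hz, mul_zero] at key
      linarith

theorem solm (hBR2 : T_BR2) (hRNG : T_RNG) : T_SOLM := by
  intro N f K U u hf hU hu
  have hm := hBR2 N f K U u hf hU hu
  refine ⟨hU, hu, hm, hRNG N f K 0 _ hf hm fun x => ?_⟩
  rw [lift0_nonpos le_rfl]
  exact ⟨chi_nonneg U x, chi_le_one U x⟩

end Pool.Agent.H35.RD
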