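import Pool.Agent.H35.RD.Base

/-!
# MP_609556_an: module TR (translation invariance of mild solutions)
-/

open MeasureTheory Set Filter Topology Metric
open Pool.Agent.H29.TF (hk P)
open Pool.Agent.H91.RD

namespace Pool.Agent.H35.RD

variable {N : ℕ}

theorem P_translate (t : ℝ) (g : E N → ℝ) (x0 x : E N) :
    P t (fun y => g (x0 + y)) x = P t g (x0 + x) := by
  unfold P
  rw [← integral_add_left_eq_self (fun y : E N => hk t (x0 + x - y) * g y) x0]
  congr 1
  ext y
  congr 2
  abel

theorem tr : T_TR := by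
  intro N f a t0 x0 w hw
  refine ⟨?_, ?_, ?_, ?_⟩
  · obtain ⟨M, hM⟩ := hw.bdd
    exact ⟨M, fun t ht x => hM _ (by linarith) _⟩
  · have : t0 + (a - t0) = a := by ring
    show Measurable (fun x => w (t0 + (a - t0)) (x0 + x))
    rw [this]
    exact hw.meas.comp (by fun_prop)
  · have h1 : (fun p : ℝ × E N => w (t0 + p.1) (x0 + p.2)) =
        (fun p : ℝ × E N => w p.1 p.2) ∘ (fun p : ℝ × E N => (t0 + p.1, x0 + p.2)) := rfl
    show ContinuousOn (fun p : ℝ × E N => w (t0 + p.1) (x0 + p.2)) _
    rw [h1]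
    refine hw.cont.comp (by fun_prop) ?_
    rintro ⟨t, x⟩ ⟨ht, -⟩
    refine ⟨?_, mem_univ _⟩
    have : a - t0 < t := ht
    show a < t0 + t
    linarith
  · intro s t hs hst x
    show w (t0 + t) (x0 + x) = P (t - s) (fun y => w (t0 + s) (x0 + y)) x +
      ∫ r in s..t, P (t - r) (fun y => f (w (t0 + r) (x0 + y))) x
    rw [hw.duh (t0 + s) (t0 + t) (by linarith) (by linarith) (x0 + x), P_translate]
    congr 1
    · congr 1; ring
    · rw [← intervalIntegral.integral_comp_add_left
        (fun r => P (t0 + t - r) (fun y => f (w r y)) (x0 + x)) t0]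
      congr 1
      ext r
      rw [P_translate (t - r) (fun y => f (w (t0 + r) y)) x0 x]
      congr 1
      ring

end Pool.Agent.H35.RD
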